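import Pool.Agent.K1H80.KA.Stm

/-!
Project KA (helper80), piece FORB: in a bipartite forest the out-sums and in-sums are injective over
every field.
-/

set_option autoImplicit false

namespace Pool.Agent.K1H65.KA

open Pool.Agent.KA Finset

section
variable {ι α : Type} [Fintype ι] [DecidableEq α]

/-- the boundary -/
def bd (t h : ι → α) (z : ι → ℤ) : α ⊕ α → ℤ
  | Sum.inl v => ∑ e, (if t e = v then z e else 0)
  | Sum.inr v => - ∑ e, (if h e = v then z e else 0)

/-- the edges different from `e0` -/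
def Rl (t h : ι → α) (e0 : ι) (u w : α ⊕ α) : Prop :=
  ∃ e, e ≠ e0 ∧ u = Sum.inl (t e) ∧ w = Sum.inr (h e)

theorem bd_zero (t h : ι → α) (x : α ⊕ α) : bd t h 0 x = 0 := by
  rcases x with v | v <;> simp [bd]

theorem bd_add (t h : ι → α) (y z : ι → ℤ) (x : α ⊕ α) :
    bd t h (y + z) x = bd t h y x + bd t h z x := by
  have key : ∀ (f : ι → α) (v : α), ∑ e, (if f e = v then (y + z) e else 0) =
      ∑ e, (if f e = v then y e else 0) + ∑ e, (if f e = v then z e else 0) := by
    intro f v
    rw [← sum_add_distrib]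
    refine sum_congr rfl fun e _ => ?_
    by_cases hv : f e = v
    · rw [if_pos hv, if_pos hv, if_pos hv, Pi.add_apply]
    · rw [if_neg hv, if_neg hv, if_neg hv, add_zero]
  rcases x with v | v
  · exact key t v
  · show -_ = -_ + -_
    rw [key h v]
    ring

theorem bd_neg (t h : ι → α) (z : ι → ℤ) (x : α ⊕ α) : bd t h (-z) x = - bd t h z x := by
  have h1 := bd_add t h (-z) z x
  rw [neg_add_cancel, bd_zero] at h1
  linarith

theorem bd_single [DecidableEq ι] (t h : ι → α) (e1 : ι) (x : α ⊕ α) :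
    bd t h (Pi.single e1 1) x =
      (if x = Sum.inl (t e1) then 1 else 0) - (if x = Sum.inr (h e1) then 1 else 0) := by
  have key : ∀ (f : ι → α) (v : α), ∑ e, (if f e = v then (Pi.single e1 1 : ι → ℤ) e else 0) =
      if v = f e1 then 1 else 0 := by
    intro f v
    rw [Finset.sum_eq_single e1]
    · rw [Pi.single_eq_same]
      by_cases hv : f e1 = v
      · rw [if_pos hv, if_pos hv.symm]
      · rw [if_neg hv, if_neg (Ne.symm hv)]
    · intro e _ he
      rw [Pi.single_eq_of_ne he]
      exact ite_self _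
    · intro he
      exact absurd (Finset.mem_univ e1) he
  rcases x with v | v
  · show ∑ e, _ = _
    rw [key t v]
    have e2 : ¬ ((Sum.inl v : α ⊕ α) = Sum.inr (h e1)) := by simp
    rw [if_neg e2, sub_zero]
    by_cases hv : v = t e1
    · rw [if_pos hv, if_pos (by rw [hv])]
    · rw [if_neg hv, if_neg (fun e => hv (Sum.inl_injective e))]
  · show -∑ e, _ = _
    rw [key h v]
    have e2 : ¬ ((Sum.inr v : α ⊕ α) = Sum.inl (t e1)) := by simp
    rw [if_neg e2, zero_sub]
    by_cases hv : v = h e1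
    · rw [if_pos hv, if_pos (by rw [hv])]
    · rw [if_neg hv, if_neg (fun e => hv (Sum.inr_injective e))]

/-- connected vertices are joined by a chain avoiding `e0` -/
theorem path [DecidableEq ι] (t h : ι → α) (e0 : ι) (u w : α ⊕ α)
    (hr : Relation.EqvGen (Rl t h e0) u w) :
    ∃ z : ι → ℤ, z e0 = 0 ∧
      ∀ x, bd t h z x = (if x = u then 1 else 0) - (if x = w then 1 else 0) := by
  induction hr with
  | rel u w hr =>
    obtain ⟨e, he, rfl, rfl⟩ := hr
    exact ⟨Pi.single e 1, Pi.single_eq_of_ne (Ne.symm he) _, bd_single t h e⟩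
  | refl u => exact ⟨0, rfl, fun x => by rw [bd_zero, sub_self]⟩
  | symm u w _ ih =>
    obtain ⟨z, h0, hz⟩ := ih
    refine ⟨-z, ?_, fun x => ?_⟩
    · rw [Pi.neg_apply, h0, neg_zero]
    · rw [bd_neg, hz]
      ring
  | trans u v w _ _ ih1 ih2 =>
    obtain ⟨y, h0, hy⟩ := ih1
    obtain ⟨z, h1, hz⟩ := ih2
    refine ⟨y + z, ?_, fun x => ?_⟩
    · rw [Pi.add_apply, h0, h1, add_zero]
    · rw [bd_add, hy, hz]
      ring

theorem sum_fib {κ : Type} [Field κ] (f : ι → α) (c : ι → κ) (g : α → κ)
    (h0 : ∀ v, ∑ e, (if f e = v then c e else 0) = 0) : ∑ e, c e * g (f e) = 0 := by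
  have h1 : ∑ v ∈ univ.image f, g v * ∑ e, (if f e = v then c e else 0) = ∑ e, c e * g (f e) := by
    simp only [mul_sum]
    rw [sum_comm]
    refine sum_congr rfl fun e _ => ?_
    rw [Finset.sum_eq_single (f e)]
    · rw [if_pos rfl, mul_comm]
    · intro v _ hv
      rw [if_neg (Ne.symm hv), mul_zero]
    · intro he
      exact absurd (mem_image_of_mem f (mem_univ e)) he
  rw [← h1]
  exact sum_eq_zero fun v _ => by rw [h0 v, mul_zero]

end

theorem forb : FORBStm := by
  intro ι α _ _ t h hF κ _ c hc1 hc2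
  classical
  funext e0
  show c e0 = 0
  by_cases hcon : Relation.EqvGen (Rl t h e0) (Sum.inl (t e0)) (Sum.inr (h e0))
  · exfalso
    obtain ⟨z, h0, hz⟩ := path t h e0 _ _ hcon
    have hy : ∀ x, bd t h (z + -(Pi.single e0 1)) x = 0 := by
      intro x
      rw [bd_add, bd_neg, bd_single, hz]
      ring
    have h3 := hF (z + -(Pi.single e0 1)) (fun v => hy (Sum.inl v))
      (fun v => neg_eq_zero.1 (hy (Sum.inr v)))
    have h4 := congrFun h3 e0
    rw [Pi.add_apply, Pi.neg_apply, Pi.single_eq_same, h0] at h4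
    norm_num at h4
  · have h1 := sum_fib t c (fun v => if Relation.EqvGen (Rl t h e0) (Sum.inl (t e0)) (Sum.inl v)
      then (1 : κ) else 0) hc1
    have h2 := sum_fib h c (fun v => if Relation.EqvGen (Rl t h e0) (Sum.inl (t e0)) (Sum.inr v)
      then (1 : κ) else 0) hc2
    have h3 : ∑ e, (c e * (if Relation.EqvGen (Rl t h e0) (Sum.inl (t e0)) (Sum.inl (t e))
        then (1 : κ) else 0) -
        c e * (if Relation.EqvGen (Rl t h e0) (Sum.inl (t e0)) (Sum.inr (h e))
        then (1 : κ) else 0)) = c e0 := by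
      rw [Finset.sum_eq_single e0]
      · rw [if_pos (Relation.EqvGen.refl _), if_neg hcon, mul_one, mul_zero, sub_zero]
      · intro e _ he
        have hrel : Relation.EqvGen (Rl t h e0) (Sum.inl (t e)) (Sum.inr (h e)) :=
          Relation.EqvGen.rel _ _ ⟨e, he, rfl, rfl⟩
        by_cases h5 : Relation.EqvGen (Rl t h e0) (Sum.inl (t e0)) (Sum.inl (t e))
        · rw [if_pos h5, if_pos (Relation.EqvGen.trans _ _ _ h5 hrel), sub_self]
        · rw [if_neg h5, if_neg (fun h6 => h5 (Relation.EqvGen.trans _ _ _ h6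
            (Relation.EqvGen.symm _ _ hrel))), sub_self]
      · intro he
        exact absurd (Finset.mem_univ e0) he
    rw [← h3, sum_sub_distrib, h1, h2, sub_zero]

end Pool.Agent.K1H65.KA
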